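import Mathlib

namespace Pool.Agent.Results.MP_1409ae_co.NotUnit

/-- A totally bounded tolerance representation of the relation `r`. -/
structure Rep {V : Type} (r : V → V → Prop) where
  L : V → ℝ
  R : V → ℝ
  p : V → ℝ
  q : V → ℝ
  hp : ∀ v, L v < p v ∧ p v ≤ R v
  hq : ∀ v, L v ≤ q v ∧ q v < R v
  rel : ∀ x y, x ≠ y → (r x y ↔ R x < p y ∧ q x < L y)
  tol : ∀ v, p v - L v = R v - q v
  tb : ∀ v, p v ≤ q v

def IsUnitRep {V : Type} {r : V → V → Prop} (ρ : Rep r) : Prop :=
  ∀ x y, ρ.R x - ρ.L x = ρ.R y - ρ.L y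

def IsProperRep {V : Type} {r : V → V → Prop} (ρ : Rep r) : Prop :=
  ∀ x y, ¬ Set.Icc (ρ.L x) (ρ.R x) ⊂ Set.Icc (ρ.L y) (ρ.R y)

def l (x : Fin 22) : ℕ := [580, 1080, 6030, 100000, 100040, 100500, 100520, 100540, 100560, 101000, 101040, 101060, 171044, 172044, 178044, 199980, 201030, 201050, 202010, 202050, 208030, 208050].getD x 0

def r (x : Fin 22) : ℕ := [100580, 101080, 106030, 201000, 201040, 202000, 202020, 202040, 202060, 208000, 208040, 208060, 231044, 232044, 238044, 299980, 301030, 301050, 302010, 302050, 308030, 308050].getD x 0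

def t (x : Fin 22) : ℕ := [45000, 45000, 45000, 750, 45000, 750, 3000, 45000, 1, 5500, 45000, 1, 30000, 30000, 30000, 45000, 1, 45000, 1, 45000, 1, 45000].getD x 0

def lt (x y : Fin 22) : Prop := r x < l y + t y ∧ r x < l y + t x

instance : DecidableRel lt := fun _ _ => inferInstanceAs (Decidable (_ ∧ _))

lemma h1 : ∀ x, 0 < t x ∧ l x + 2 * t x ≤ r x := by decide +kernel

lemma h2 : ∀ x y, l y ≤ l x → r x ≤ r y → x = y := by decide +kernel

noncomputable def rep : Rep lt where
  L v := l v
  R v := r v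
  p v := l v + t v
  q v := r v - t v
  hp v := by have := h1 v; constructor <;> norm_cast <;> omega
  hq v := by
    have := h1 v
    rw [le_sub_iff_add_le, sub_lt_self_iff]
    constructor <;> norm_cast <;> omega
  rel x y _ := by rw [sub_lt_iff_lt_add]; norm_cast
  tol v := by ring
  tb v := by have := h1 v; rw [le_sub_iff_add_le]; norm_cast; omega

lemma key (a s : Fin 22 → ℝ) (D : ℝ) (_h : 0 < D) (A : ∀ x, D ≤ 2 * s x) (B : ∀ x, s x < D)
    (C : ∀ x y, lt x y → a x + s x < a y) (E : ∀ x y, lt x y → a x + s y < a y)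
    (F : ∀ x y, ¬ lt x y → a y ≤ a x + s x ∨ a y ≤ a x + s y) : False := by
  have G : ∀ x y, ¬ lt x y → a y < a x + D := fun x y e => by
    rcases F x y e with e | e <;> linarith [B x, B y]
  rcases F 2 5 (by decide) with u2_5 | v2_5
  · linarith [G 5 17 (by decide), u2_5, C 4 12 (by decide), C 2 4 (by decide),
      C 12 17 (by decide), A 2, A 4, A 12]
  rcases F 8 17 (by decide) with u8_17 | v8_17
  swap
  · linarith [C 0 4 (by decide), E 12 17 (by decide), G 0 8 (by decide), C 4 12 (by decide),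
      v8_17, A 0, A 4, A 17]
  rcases F 11 21 (by decide) with u11_21 | v11_21
  swap
  · linarith [C 2 4 (by decide), v11_21, E 1 5 (by decide), E 12 21 (by decide),
      G 1 11 (by decide), v2_5, C 4 12 (by decide), A 2, A 4, A 5, A 21]
  rcases F 10 20 (by decide) with u10_20 | v10_20
  · linarith [C 14 21 (by decide), C 2 4 (by decide), C 10 14 (by decide), E 1 5 (by decide),
      G 1 11 (by decide), G 11 21 (by decide), v2_5, C 4 12 (by decide), u8_17,
      C 8 20 (by decide), u10_20, C 12 17 (by decide), A 2, A 4, A 5, A 8, A 10, A 12, A 14]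
  rcases F 5 17 (by decide) with u5_17 | v5_17
  swap
  · linarith [E 5 20 (by decide), v5_17, v10_20, E 10 17 (by decide), A 17, A 20]
  rcases F 7 18 (by decide) with u7_18 | v7_18
  · linarith [C 7 13 (by decide), C 13 19 (by decide), u5_17, G 0 8 (by decide),
      C 5 18 (by decide), G 8 19 (by decide), C 0 4 (by decide), C 4 12 (by decide), u7_18,
      C 12 17 (by decide), A 0, A 4, A 5, A 7, A 12, A 13]
  rcases F 0 8 (by decide) with u0_8 | v0_8
  · linarith [C 14 21 (by decide), C 7 13 (by decide), C 10 14 (by decide),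
      C 13 19 (by decide), u11_21, E 1 5 (by decide), E 8 20 (by decide), u5_17,
      G 1 11 (by decide), G 8 19 (by decide), B 11, u0_8, C 0 4 (by decide),
      C 4 12 (by decide), v10_20, E 5 18 (by decide), v7_18, C 12 17 (by decide), A 0, A 4,
      A 5, A 7, A 10, A 12, A 13, A 14, A 18, A 20]
  rcases F 9 19 (by decide) with u9_19 | v9_19
  swap
  · linarith [v9_19, E 9 20 (by decide), v10_20, E 10 19 (by decide), A 19, A 20]
  rcases F 8 19 (by decide) with u8_19 | v8_19
  swap
  · linarith [v8_19, E 8 20 (by decide), v10_20, E 10 19 (by decide), A 19, A 20]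
  rcases F 6 18 (by decide) with u6_18 | v6_18
  · linarith [u5_17, C 5 18 (by decide), u6_18, C 6 17 (by decide), A 5, A 6]
  rcases F 2 6 (by decide) with u2_6 | v2_6
  · linarith [C 14 21 (by decide), C 2 4 (by decide), C 7 13 (by decide),
      C 10 14 (by decide), C 13 19 (by decide), u11_21, E 1 5 (by decide), C 4 12 (by decide),
      E 2 9 (by decide), u5_17, G 1 11 (by decide), u9_19, v6_18, B 11, E 9 20 (by decide),
      v2_5, u2_6, v10_20, E 5 18 (by decide), v7_18, C 12 17 (by decide), A 2, A 4, A 5, A 7,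
      A 9, A 10, A 12, A 13, A 14, A 18, A 20]
  rcases F 3 15 (by decide) with u3_15 | v3_15
  swap
  · linarith [v6_18, v3_15, E 6 15 (by decide), E 3 18 (by decide), A 15, A 18]
  rcases F 4 16 (by decide) with u4_16 | v4_16
  · linarith [C 14 21 (by decide), C 2 4 (by decide), C 7 13 (by decide),
      C 10 14 (by decide), C 13 19 (by decide), u11_21, C 6 15 (by decide), E 1 5 (by decide),
      C 4 12 (by decide), E 2 9 (by decide), u5_17, G 1 11 (by decide), u9_19, v6_18, B 11,
      E 9 20 (by decide), u4_16, u3_15, C 3 16 (by decide), v2_6, v10_20, E 5 18 (by decide),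
      v7_18, C 12 17 (by decide), A 2, A 3, A 4, A 5, A 6, A 7, A 9, A 10, A 12, A 13, A 14,
      A 18, A 20]
  linarith [u8_19, C 14 21 (by decide), B 8, C 7 13 (by decide), C 10 14 (by decide),
    C 13 19 (by decide), u11_21, C 6 15 (by decide), E 1 5 (by decide), C 4 12 (by decide),
    E 2 9 (by decide), u5_17, G 1 11 (by decide), u9_19, v6_18, B 11, v0_8,
    E 9 20 (by decide), v4_16, u3_15, v2_6, v10_20, E 3 16 (by decide), E 0 3 (by decide),
    E 5 18 (by decide), v7_18, C 12 17 (by decide), A 3, A 4, A 5, A 6, A 7, A 9, A 10, A 12,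
    A 13, A 14, A 16, A 18, A 20]

theorem result : ∃ (V : Type) (_ : Finite V) (r : V → V → Prop), IsStrictOrder V r ∧
    (∃ ρ : Rep r, IsProperRep ρ) ∧ ¬ ∃ ρ : Rep r, IsUnitRep ρ := by
  refine ⟨Fin 22, inferInstance, lt, ?_, ⟨rep, fun x y h => ?_⟩, fun ⟨ρ, u⟩ => ?_⟩
  · refine @IsStrictOrder.mk _ _ ⟨fun x h => ?_⟩ ⟨fun x y z a b => ?_⟩
    · have := h1 x
      have := h.1
      omega
    · have := h1 y
      obtain ⟨_, _⟩ := a
      obtain ⟨_, _⟩ := b
      constructor <;> omega
  · have := h1 x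
    have e := (Set.Icc_subset_Icc_iff (by simp only [rep]; norm_cast; omega)).1 h.1
    simp only [rep, Nat.cast_le] at e
    exact h.ne (by rw [h2 x y e.1 e.2])
  · have ne : ∀ x y, lt x y → x ≠ y := fun x y h e => by
      have := h1 x
      have := h.1
      subst e
      omega
    refine key ρ.L (fun x => ρ.q x - ρ.L x) (ρ.R 0 - ρ.L 0) (by linarith [ρ.hp 0])
      (fun x => by linarith [u x 0, ρ.tol x, ρ.tb x]) (fun x => by linarith [u x 0, ρ.hq x])
      (fun x y h => by linarith [((ρ.rel x y (ne x y h)).1 h).2])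
      (fun x y h => by linarith [((ρ.rel x y (ne x y h)).1 h).1, u x y, ρ.tol y]) fun x y h => ?_
    rcases eq_or_ne x y with rfl | e
    · left; linarith [ρ.hq x]
    rw [ρ.rel x y e, not_and_or, not_lt, not_lt] at h
    rcases h with h | h
    · right; linarith [u x y, ρ.tol y]
    · left; linarith

end Pool.Agent.Results.MP_1409ae_co.NotUnit
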